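import Pool.Agent.R498.MP.LinC

set_option autoImplicit false

/-!
# Strings of consecutive primes `p` with almost prime `(h p) ^ 2 + 1` and `f(p)`
-/

namespace Pool.Agent.Results.MP_f1a94e_nt.PrimeStrings

open Filter

/-- `n ≠ 0` is up to the sign a product of at most `r` primes, counted with multiplicity, all of them at
least `w`. -/
def AlmostPrime (r : ℕ) (w : ℝ) (n : ℤ) : Prop :=
  n ≠ 0 ∧ n.natAbs.primeFactorsList.length ≤ r ∧ ∀ q : ℕ, q.Prime → (q : ℤ) ∣ n → w ≤ q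

/-- The primes in the interval `[x, x + C]` are exactly the numbers `x + s`, `s ∈ H`. -/
def PrimePattern (C : ℕ) (H : Finset ℕ) (x : ℕ) : Prop := ∀ y ≤ C, (x + y).Prime ↔ y ∈ H

theorem almost_of_mul (r : ℕ) (w : ℝ) (a b : ℤ) (hab : a * b ≠ 0)
    (h1 : (a * b).natAbs.primeFactorsList.length ≤ r)
    (h2 : ∀ q : ℕ, q.Prime → (q : ℤ) ∣ a * b → w ≤ q) : AlmostPrime r w a ∧ AlmostPrime r w b := by
  have ha : a ≠ 0 := left_ne_zero_of_mul hab
  have hb : b ≠ 0 := right_ne_zero_of_mul hab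
  have h3 : (a * b).natAbs ≠ 0 := Int.natAbs_ne_zero.2 hab
  refine ⟨⟨ha, ?_, fun q hq hd => h2 q hq (hd.mul_right _)⟩, hb, ?_,
    fun q hq hd => h2 q hq (hd.mul_left _)⟩
  · refine le_trans ?_ h1
    exact (Nat.primeFactorsList_sublist_of_dvd (Int.natAbs_dvd_natAbs.2 (dvd_mul_right a b))
      h3).length_le
  · refine le_trans ?_ h1
    exact (Nat.primeFactorsList_sublist_of_dvd (Int.natAbs_dvd_natAbs.2 (dvd_mul_left b a))
      h3).length_le

/-- **Strings of consecutive primes `p ≡ c` modulo `q` with almost prime `(h p) ^ 2 + 1` and `f(p)`.** Let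
`h ≥ 0` and let `f` be a polynomial with integer coefficients without nonzero integer zeros such that
`x ((h x) ^ 2 + 1) f(x)` has no fixed prime divisor (then `h` is even, and for every even `h` one can take
`f = 1`). Let `q` be squarefree and let `c ((h c) ^ 2 + 1) f(c)` be coprime to `q` (for instance `q = 1`).
For every `m` there are `K`, `r` and `δ > 0` such that, for every finite set `S` of at least `K`
nonnegative integers and every `l`, there is an exponent `B` such that for all large `N` there are a subset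
`H` of `S` with at least `m` elements and an arithmetic progression `n, n + d, ..., n + (l - 1) d` in
`(N, 2 N]` with difference `1 ≤ d ≤ (log N) ^ B` such that for all its terms `x` the primes in
`[x, x + max S]` are exactly the numbers `x + s`, `s ∈ H`, and all these primes `p` are `≡ c` modulo `q`
and both numbers `(h p) ^ 2 + 1` and `f(p)` have at most `r` prime factors, all of them at least `N ^ δ`. -/
theorem result (h : ℕ) (f : Polynomial ℤ) (hf : ∀ n : ℤ, n ≠ 0 → f.eval n ≠ 0)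
    (hadm : ∀ p : ℕ, p.Prime → ∃ n : ℤ, ¬ (p : ℤ) ∣ n * (((h : ℤ) * n) ^ 2 + 1) * f.eval n)
    (q c : ℕ) (hq : Squarefree q)
    (hc : IsCoprime ((c : ℤ) * (((h : ℤ) * c) ^ 2 + 1) * f.eval (c : ℤ)) (q : ℤ)) (m : ℕ) :
    ∃ (K r : ℕ) (δ : ℝ), 0 < δ ∧ ∀ S : Finset ℕ, K ≤ S.card → ∀ l : ℕ, ∃ B : ℕ,
      ∀ᶠ N : ℕ in atTop, ∃ H ⊆ S, m ≤ H.card ∧ ∃ n d : ℕ, 1 ≤ d ∧ (d : ℝ) ≤ Real.log N ^ B ∧
      ∀ j < l, N < n + j * d ∧ n + j * d + S.sup id ≤ 2 * N ∧
        PrimePattern (S.sup id) H (n + j * d) ∧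
        ∀ s ∈ H, n + j * d + s ≡ c [MOD q] ∧
          AlmostPrime r ((N : ℝ) ^ δ) (((h * (n + j * d + s) : ℕ) : ℤ) ^ 2 + 1) ∧
          AlmostPrime r ((N : ℝ) ^ δ) (f.eval ((n + j * d + s : ℕ) : ℤ)) := by
  have hnz : ∀ n : ℤ, (Pool.Agent.R498.MP.HX h 1).eval n ≠ 0 := Pool.Agent.R498.MP.HX_nz h 1 (by
    rintro ⟨r, hr⟩
    nlinarith [mul_self_nonneg r])
  obtain ⟨K, r, δ, hδ, hmain⟩ := Pool.Agent.R498.MP.stringsCR (Pool.Agent.R498.MP.HX h 1 * f)
    (fun n hn => by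
      rw [Polynomial.eval_mul]
      exact mul_ne_zero (hnz n) (hf n hn))
    (fun p hp => by
      obtain ⟨n, hn⟩ := hadm p hp
      refine ⟨n, ?_⟩
      rwa [Polynomial.eval_mul, Pool.Agent.R498.MP.HX_eval, ← mul_assoc]) q c hq
    (fun p hp hpq => by
      rw [Polynomial.eval_mul, Pool.Agent.R498.MP.HX_eval, ← mul_assoc]
      exact Pool.Agent.R498.MP.cop_to _ q hc p hp hpq) m
  refine ⟨K, r, δ, hδ, fun S hS l => ?_⟩
  obtain ⟨B, hB⟩ := hmain S hS l
  refine ⟨B, ?_⟩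
  filter_upwards [hB] with N hN
  obtain ⟨H, hH, hHm, n, d, h3, h4, h5⟩ := hN
  refine ⟨H, hH, hHm, n, d, h3, h4, fun j hj => ?_⟩
  obtain ⟨g1, g2, g3, g4⟩ := h5 j hj
  refine ⟨g1, g2, g3, fun s hs => ?_⟩
  obtain ⟨gc, g0, g5, g6⟩ := g4 s hs
  rw [Polynomial.eval_mul, Pool.Agent.R498.MP.HX_eval] at g0 g5 g6
  have e : ((h : ℤ) * ((n + j * d + s : ℕ) : ℤ)) ^ 2 + 1 =
      ((h * (n + j * d + s) : ℕ) : ℤ) ^ 2 + 1 := by push_cast; ring
  rw [e] at g0 g5 g6
  obtain ⟨a1, a2⟩ := almost_of_mul r _ _ _ g0 g5 g6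
  exact ⟨gc, a1, a2⟩

end Pool.Agent.Results.MP_f1a94e_nt.PrimeStrings
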