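import Pool.Agent.R490.InstG

set_option autoImplicit false

/-!
# Rough values of `n ^ 2 + 1`, `n` in a progression: the law of the spacings, uniformly in the modulus
-/

namespace Pool.Agent.Results.MP_f1a94e_nt.SpacingLawProgressions

open Finset Filter

/-- The function `(q x + a) ^ 2 + 1`. -/
def g (q a : ℕ) (x : ℤ) : ℤ := (q * x + a) ^ 2 + 1

/-- `f m` has no prime factor `≤ y`. -/
def Rough (f : ℤ → ℤ) (y m : ℕ) : Prop := ∀ p : ℕ, p.Prime → p ≤ y → ¬ (p : ℤ) ∣ f (m : ℤ)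

open Classical in
/-- The sieve density: the product of `1 - ρ(p) / p` over the primes `p ≤ y`, where `ρ(p)` is the number of
the residues `m` modulo `p` with `p ∣ f m`. -/
noncomputable def V (f : ℤ → ℤ) (y : ℕ) : ℝ := ∏ p ∈ (Finset.range (y + 1)).filter Nat.Prime,
    (1 - (((Finset.range p).filter (fun m : ℕ => (p : ℤ) ∣ f (m : ℤ))).card : ℝ) / p)

/-- The density of the integers without prime factor `≤ y`; `V f y / V1 y` is the product of the
conjecture, cut at `y`. -/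
noncomputable def V1 (y : ℕ) : ℝ := ∏ p ∈ (Finset.range (y + 1)).filter Nat.Prime, (1 - 1 / (p : ℝ))

open Classical in
/-- The number of the rough `n` in `(u, u + Y]` for which fewer than `k` of the `T` integers before `n` are
rough, that is, for which the distance from `n` to the `k`-th preceding rough integer is larger than `T`;
rough means `Rough f y`. -/
noncomputable def D (f : ℤ → ℤ) (y k T u Y : ℕ) : ℕ :=
  ((Ioc u (u + Y)).filter (fun n => Rough f y n ∧
    ((Ico (n - T) n).filter (fun m => Rough f y m)).card < k)).card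

open Classical in
/-- **The law of the spacings in progressions.** For all `A`, `θ > 0`, `k0`, `x0` and `ε > 0` there is `r0` such that
for `r ≥ r0`, every `B` and all large `X` the following holds for ALL residue classes `a` modulo `q ≤ X ^ A`
for which `a ^ 2 + 1` is prime to `q` and `V ≤ B V1`, and for EVERY interval `(u, u + Y]`, `Y ≥ X ^ θ`: among
the integers `m` in it for which `(q m + a) ^ 2 + 1` has no prime factor `≤ X ^ (1 / r)`, the distances to the
`k`-th preceding one have, in units `1 / V` and up to `ε`, the distribution which belongs to a Poisson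
process; for `k = 1` it is the exponential distribution. -/
theorem result (A : ℕ) (θ : ℝ) (hθ : 0 < θ) (k0 : ℕ) (x0 ε : ℝ) (hε : 0 < ε) :
    ∃ r0 : ℕ, ∀ r : ℕ, r0 ≤ r → ∀ B : ℝ, ∀ᶠ X : ℕ in atTop, ∀ q a : ℕ, 1 ≤ q → a ≤ q →
      Nat.Coprime q (a ^ 2 + 1) → q ≤ X ^ A →
      V (g q a) ⌊(X : ℝ) ^ (1 / (r : ℝ))⌋₊ ≤ B * V1 ⌊(X : ℝ) ^ (1 / (r : ℝ))⌋₊ →
      ∀ u Y : ℕ, (X : ℝ) ^ θ ≤ Y → ∀ k T : ℕ,
        (k ≤ k0 ∨ T * V (g q a) ⌊(X : ℝ) ^ (1 / (r : ℝ))⌋₊ ≤ x0) →
        |(D (g q a) ⌊(X : ℝ) ^ (1 / (r : ℝ))⌋₊ k T u Y : ℝ) -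
          Y * V (g q a) ⌊(X : ℝ) ^ (1 / (r : ℝ))⌋₊ *
            ∑ j ∈ range k, Real.exp (-(T * V (g q a) ⌊(X : ℝ) ^ (1 / (r : ℝ))⌋₊)) *
              (T * V (g q a) ⌊(X : ℝ) ^ (1 / (r : ℝ))⌋₊) ^ j / j.factorial| ≤
          ε * (Y * V (g q a) ⌊(X : ℝ) ^ (1 / (r : ℝ))⌋₊) := by
  obtain ⟨r0, h0⟩ := Pool.Agent.R490.Sg.gapS 2 (2 * A + 1) θ hθ k0 x0 ε hε
  refine ⟨r0, fun r hr B => ?_⟩
  filter_upwards [h0 r hr B, eventually_ge_atTop 2] with X hX hX1
  intro q a hq haq hco hqX hV u Y hY k T hT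
  exact hX _ (g q a) (Pool.Agent.R490.Sg.good_pr q a X A hX1 hq haq hco hqX) _ rfl hV u Y hY k T hT

end Pool.Agent.Results.MP_f1a94e_nt.SpacingLawProgressions
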