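import Pool.Agent.R490.UnifProg

set_option autoImplicit false

/-!
# Rough values of `(q m + a) ^ 2 + 1` in windows: the Poisson law, uniformly in `q` and in the position
-/

namespace Pool.Agent.Results.MP_f1a94e_nt.UniformProgressionsLaw

open Finset

open Classical in
/-- The number of the integers `m` in `(n, n + T]` for which `(q m + a) ^ 2 + 1` has no prime factor `≤ y`. -/
noncomputable def W (q a y T n : ℕ) : ℕ :=
  ((Ioc n (n + T)).filter (fun m => ∀ p : ℕ, p.Prime → p ≤ y → ¬ p ∣ (q * m + a) ^ 2 + 1)).card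

open Classical in
/-- The product of `1 - ρ(p) / p` over the primes `p ≤ y`, where `ρ(p)` is the number of the residues `m`
modulo `p` with `p ∣ (q m + a) ^ 2 + 1`; this is the density of the integers counted in `W`. -/
noncomputable def V (q a y : ℕ) : ℝ := ∏ p ∈ (Finset.range (y + 1)).filter Nat.Prime,
    (1 - (((Finset.range p).filter (fun m : ℕ => p ∣ (q * m + a) ^ 2 + 1)).card : ℝ) / p)

open Classical in
/-- **Uniform Poisson law for the rough values of `x ^ 2 + 1` in progressions.** For all `x0` and `ε > 0`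
there are `K, y0, T0, R` and `η > 0` such that for `y ≥ y0`, `Y ≥ y ^ K`, `T ≥ T0`, `Y ≥ T ^ R`, for EVERY
residue class `a` modulo `q` for which `a ^ 2 + 1` is prime to `q`, with `log (q ^ 2 T ^ 2 + 4) ≤ η T log T`
and `T V ≤ x0`, and for EVERY interval `(s, s + Y]`: the number `W` of the integers `m` in `(n, n + T]` for
which `(q m + a) ^ 2 + 1` has no prime factor `≤ y`, `n` running over `(s, s + Y]`, has the Poisson law with
mean `T V`, up to an error `ε` in total variation. -/
theorem result (x0 ε : ℝ) (hx0 : 0 ≤ x0) (hε : 0 < ε) :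
    ∃ (K y0 T0 R : ℕ) (η : ℝ), 0 < η ∧ ∀ Y y T : ℕ, y0 ≤ y → y ^ K ≤ Y → T0 ≤ T → T ^ R ≤ Y →
      ∀ q a s : ℕ, Nat.Coprime q (a ^ 2 + 1) → Real.log ((q : ℝ) ^ 2 * T ^ 2 + 4) ≤ η * T * Real.log T →
      T * V q a y ≤ x0 →
      ∀ J : Finset ℕ, |(((Ioc s (s + Y)).filter (fun n => W q a y T n ∈ J)).card : ℝ) -
        Y * ∑ j ∈ J, Real.exp (-(T * V q a y)) * (T * V q a y) ^ j / j.factorial| ≤ ε * Y :=
  Pool.Agent.R490.UP.uniform x0 ε hx0 hε

end Pool.Agent.Results.MP_f1a94e_nt.UniformProgressionsLaw
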